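import Pool.Agent.H75.NLSCore
import Pool.Agent.H75.NLSFinal

/-!
Real-valued (even analytic) initial data of `-i u_t = u_xx + u^2` on the circle need not have
global solutions.
-/

open scoped Topology
open Set Filter Complex

namespace Pool.Agent.Results.MP_12ab79_an.RealDataBlowUp

/-- There are `ν > 1` and a real-valued initial datum `u0` in `A_ν` such that for every
`ν' ∈ [1, ν]` the maximal forward solution in `A_{ν'}` lives on a finite time interval `[0, T)`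
only: its norm tends to infinity as `t → T`, and no solution exists on any `[0, T']` with
`T' ≥ T`. -/
theorem result : ∃ ν : ℝ, 1 < ν ∧ ∃ u0 : ℤ → ℂ,
    (∀ x : ℝ, (∑' k : ℤ, u0 k * exp (2 * Real.pi * I * k * x)).im = 0) ∧
    (Summable fun k : ℤ => ‖u0 k‖ * ν ^ k.natAbs) ∧
    ∀ ν' ∈ Icc 1 ν, ∃ T : ℝ, 0 < T ∧
      (∃ u : ℝ → ℤ → ℂ, u 0 = u0 ∧ QuadNLS.Solves ν' (Ico 0 T) u ∧
        Tendsto (fun t => ∑' k : ℤ, ‖u t k‖ * ν' ^ k.natAbs) (𝓝[<] T) atTop) ∧
      ∀ (T' : ℝ) (v : ℝ → ℤ → ℂ), v 0 = u0 → QuadNLS.Solves ν' (Icc 0 T') v → T' < T :=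
  NLSq.final_of_core NLSq.core

end Pool.Agent.Results.MP_12ab79_an.RealDataBlowUp
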